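import Pool.Agent.Q35.DP.Plan

/-!
# Project DP, job EQN: the equation by polynomials in the coordinates
-/

set_option autoImplicit false

namespace Pool.Agent.Q192.DP

open MvPolynomial FF Pool.Agent.W603.LV Pool.Agent.TH145.GH Pool.Agent.Y166.DP Pool.Agent.Q35.DP

/-- `p(x) + q(x) y = 0` implies `p = q = 0` -/
lemma unique {k K : Type} [Field k] [Field K] [Algebra k K] {lam : k} {x y : K}
    (h : Ell k K lam x y) (p q : Polynomial k)
    (h0 : Polynomial.aeval x p + Polynomial.aeval x q * y = 0) : p = 0 ∧ q = 0 := by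
  have hinj : Function.Injective (Polynomial.aeval x : Polynomial k →ₐ[k] K) :=
    transcendental_iff_injective.1 h.tr
  set f : Polynomial k := Polynomial.X * (Polynomial.X - Polynomial.C 1) *
    (Polynomial.X - Polynomial.C lam) with hf
  have hfx : Polynomial.aeval x f = y ^ 2 := by
    rw [h.eqn, hf]
    simp
  have h1 : p ^ 2 = q ^ 2 * f := by
    apply hinj
    rw [map_pow, map_mul, map_pow, hfx]
    linear_combination (Polynomial.aeval x p - Polynomial.aeval x q * y) * h0
  have hdeg : f.natDegree = 3 := by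
    rw [hf, Polynomial.natDegree_mul (mul_ne_zero Polynomial.X_ne_zero
      (Polynomial.X_sub_C_ne_zero _)) (Polynomial.X_sub_C_ne_zero _),
      Polynomial.natDegree_mul Polynomial.X_ne_zero (Polynomial.X_sub_C_ne_zero _),
      Polynomial.natDegree_X, Polynomial.natDegree_X_sub_C, Polynomial.natDegree_X_sub_C]
  have hf0 : f ≠ 0 := by
    intro h2
    rw [h2] at hdeg
    simp at hdeg
  have hq : q = 0 := by
    by_contra hq
    have h2 := congrArg Polynomial.natDegree h1
    rw [Polynomial.natDegree_mul (pow_ne_zero 2 hq) hf0, Polynomial.natDegree_pow,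
      Polynomial.natDegree_pow, hdeg] at h2
    omega
  rw [hq, zero_pow two_ne_zero, zero_mul] at h1
  exact ⟨pow_eq_zero_iff two_ne_zero |>.1 h1, hq⟩

lemma map_fn {A B : Type} [CommRing A] [CommRing B] (Φ : A →+* B) (x y : A) (j : ℕ) :
    Φ (fn x y j) = fn (Φ x) (Φ y) j := by
  unfold fn
  split_ifs
  · exact map_one Φ
  · exact map_pow Φ _ _
  · rw [map_mul, map_pow]

section

variable (k₀ : Type) [Field k₀] (lam : k₀) (d : ℕ)

/-- polynomials in `x`, `y` whose coefficients are polynomials in the coordinates -/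
abbrev AA : Type := Polynomial (Polynomial (MvPolynomial (Idx d) k₀))

/-- the coordinate functions -/
noncomputable def vv (s : Idx d) : AA k₀ d := Polynomial.C (Polynomial.C (MvPolynomial.X s))

/-- the function `x` -/
noncomputable def xx : AA k₀ d := Polynomial.C Polynomial.X

/-- the function `y` -/
noncomputable def yy : AA k₀ d := Polynomial.X

/-- the universal triple of functions -/
noncomputable def GG (i : Fin 3) : AA k₀ d :=
  ∑ j : Fin (d + 1), vv k₀ d (.inl (i, j)) * fn (xx k₀ d) (yy k₀ d) j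

/-- the universal function `x h` -/
noncomputable def HH : AA k₀ d :=
  ∑ j : Fin (2 * d + 3), vv k₀ d (.inr j) * fn (xx k₀ d) (yy k₀ d) j

/-- the difference of the two sides of the equation -/
noncomputable def DD : AA k₀ d :=
  HH k₀ d ^ 2 - xx k₀ d * (GG k₀ d 0 ^ 4 + GG k₀ d 1 ^ 4 + GG k₀ d 2 ^ 4)

/-- the equation of the curve -/
noncomputable def gg : AA k₀ d :=
  Polynomial.X ^ 2 - Polynomial.C (Polynomial.X * (Polynomial.X - 1) *
    (Polynomial.X - Polynomial.C (MvPolynomial.C lam)))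

end

theorem eqn : StmEqn := by
  intro k₀ _ lam d
  have hmonic : (gg k₀ lam d).Monic := Polynomial.monic_X_pow_sub_C _ two_ne_zero
  have hnd : (gg k₀ lam d).natDegree = 2 := Polynomial.natDegree_X_pow_sub_C
  set ρ : AA k₀ d := DD k₀ d %ₘ gg k₀ lam d with hρ
  have hρd : ρ.natDegree < 2 := by
    rw [← hnd]
    refine Polynomial.natDegree_modByMonic_lt _ hmonic ?_
    intro h1
    rw [h1] at hnd
    simp at hnd
  refine ⟨{F | ∃ n : ℕ, F = (ρ.coeff 0).coeff n ∨ F = (ρ.coeff 1).coeff n}, ?_⟩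
  intro k K _ _ _ _ x y h c
  set φ : MvPolynomial (Idx d) k₀ →+* k := (MvPolynomial.aeval c : _ →ₐ[k₀] k).toRingHom with hφ
  set ψ : Polynomial (MvPolynomial (Idx d) k₀) →+* K :=
    Polynomial.eval₂RingHom ((algebraMap k K).comp φ) x with hψ
  set Φ : AA k₀ d →+* K := Polynomial.eval₂RingHom ψ y with hΦ
  have hΦC : ∀ p, Φ (Polynomial.C p) = ψ p := fun p => Polynomial.eval₂_C _ _
  have hΦX : Φ Polynomial.X = y := Polynomial.eval₂_X _ _
  have hψX : ψ Polynomial.X = x := Polynomial.eval₂_X _ _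
  have hψC : ∀ a, ψ (Polynomial.C a) = algebraMap k K (φ a) := fun a => Polynomial.eval₂_C _ _
  have hsub : ∀ a b : AA k₀ d, Φ (a - b) = Φ a - Φ b := fun a b => RingHom.map_sub Φ a b
  have hψsub : ∀ a b : Polynomial (MvPolynomial (Idx d) k₀), ψ (a - b) = ψ a - ψ b :=
    fun a b => RingHom.map_sub ψ a b
  have hxx : Φ (xx k₀ d) = x := (hΦC _).trans hψX
  have hyy : Φ (yy k₀ d) = y := hΦX
  have hfn : ∀ j : ℕ, Φ (fn (xx k₀ d) (yy k₀ d) j) = fn x y j := by
    intro j
    have h1 := map_fn Φ (xx k₀ d) (yy k₀ d) j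
    rw [hxx, hyy] at h1
    exact h1
  have hv : ∀ s, Φ (vv k₀ d s) = algebraMap k K (c s) := by
    intro s
    unfold vv
    rw [hΦC, hψC]
    congr 1
    exact MvPolynomial.aeval_X _ _
  have hG : ∀ i, Φ (GG k₀ d i) = gv x y c i := by
    intro i
    unfold GG gv fsum
    rw [map_sum]
    refine Finset.sum_congr rfl fun j _ => ?_
    rw [map_mul, hv, hfn]
  have hH : Φ (HH k₀ d) = xh x y c := by
    unfold HH xh fsum
    rw [map_sum]
    refine Finset.sum_congr rfl fun j _ => ?_
    rw [map_mul, hv, hfn]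
  have hD : Φ (DD k₀ d) = xh x y c ^ 2 - x * quart (gv x y c) := by
    unfold DD quart
    rw [hsub, map_pow, map_mul, map_add, map_add, map_pow, map_pow, map_pow, hG, hG, hG, hH,
      hxx]
  have hg : Φ (gg k₀ lam d) = 0 := by
    unfold gg
    rw [hsub, map_pow, hΦX, hΦC, map_mul, map_mul, hψsub, hψsub, hψX, hψC, map_one, h.eqn]
    have : φ (MvPolynomial.C lam) = algebraMap k₀ k lam := MvPolynomial.aeval_C _ _
    rw [this, sub_self]
  have hρΦ : Φ ρ = xh x y c ^ 2 - x * quart (gv x y c) := by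
    rw [← hD]
    conv_rhs => rw [← Polynomial.modByMonic_add_div (DD k₀ d) (gg k₀ lam d)]
    rw [map_add, map_mul, hg, zero_mul, add_zero]
  have hρs : Φ ρ = ψ (ρ.coeff 0) + ψ (ρ.coeff 1) * y := by
    have h1 : Φ ρ = Polynomial.eval₂ ψ y ρ := rfl
    rw [h1, Polynomial.eval₂_eq_sum_range' ψ hρd y, Finset.sum_range_succ, Finset.sum_range_one]
    rw [pow_zero, mul_one, pow_one]
  have hψm : ∀ p, ψ p = Polynomial.aeval x (p.map φ) := by
    intro p
    rw [Polynomial.aeval_def, Polynomial.eval₂_map]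
    rfl
  have h1 : (xh x y c ^ 2 = x * quart (gv x y c)) ↔
      Polynomial.aeval x ((ρ.coeff 0).map φ) + Polynomial.aeval x ((ρ.coeff 1).map φ) * y = 0 := by
    rw [← hψm, ← hψm, ← hρs, hρΦ, sub_eq_zero]
  rw [h1]
  constructor
  · intro h2 F hF
    obtain ⟨e0, e1⟩ := unique h _ _ h2
    obtain ⟨n, rfl | rfl⟩ := hF
    · have h3 : ((ρ.coeff 0).map φ).coeff n = 0 := by rw [e0, Polynomial.coeff_zero]
      rw [Polynomial.coeff_map] at h3
      exact h3
    · have h3 : ((ρ.coeff 1).map φ).coeff n = 0 := by rw [e1, Polynomial.coeff_zero]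
      rw [Polynomial.coeff_map] at h3
      exact h3
  · intro h2
    have e0 : (ρ.coeff 0).map φ = 0 := by
      ext n
      rw [Polynomial.coeff_map, Polynomial.coeff_zero]
      exact h2 _ ⟨n, Or.inl rfl⟩
    have e1 : (ρ.coeff 1).map φ = 0 := by
      ext n
      rw [Polynomial.coeff_map, Polynomial.coeff_zero]
      exact h2 _ ⟨n, Or.inr rfl⟩
    rw [e0, e1, map_zero, zero_mul, add_zero]

end Pool.Agent.Q192.DP
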